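import Pool.Agent.R94.CS.L
import Pool.Agent.R94.CS.U

set_option autoImplicit false

/-!
Compatible sum-distinct sequences: `t (2^n - 1) ≤ n s(t,n)` and `s(t,n) ≤ 8 n max(t,n) 2^n`.
-/

namespace Pool.Agent.Results.MP_21e00f_co.TwoSidedBounds

open Pool.Agent.R94.CS

/-- For all `t, n ≥ 1`: `t (2^n - 1) / n ≤ s(t,n) ≤ 8 n max(t,n) 2^n`. -/
theorem result : ∀ t n : ℕ, 1 ≤ t → 1 ≤ n →
    t * (2 ^ n - 1) ≤ n * s t n ∧ s t n ≤ 8 * n * max t n * 2 ^ n :=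
  final sL sU

end Pool.Agent.Results.MP_21e00f_co.TwoSidedBounds
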